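import Mathlib
import Pool.Agent.H7.Abc.Height

/-! The action of an automorphism of a number field on its primes. -/

namespace Pool.Agent.ACM

open NumberField IsDedekindDomain Pool.Agent.H7.Abc

variable {K : Type*} [Field K] [NumberField K]

/-- The automorphism of the ring of integers induced by `σ`. -/
noncomputable def cc (σ : K ≃+* K) : 𝓞 K ≃+* 𝓞 K := RingOfIntegers.mapRingEquiv σ

theorem coe_cc (σ : K ≃+* K) (r : 𝓞 K) : ((cc σ r : 𝓞 K) : K) = σ (r : K) := rfl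

theorem cc_symm (σ : K ≃+* K) (r : 𝓞 K) : cc σ (cc σ.symm r) = r := by
  apply RingOfIntegers.ext
  rw [coe_cc, coe_cc]
  simp

theorem cc_symm' (σ : K ≃+* K) (r : 𝓞 K) : cc σ.symm (cc σ r) = r := by
  apply RingOfIntegers.ext
  rw [coe_cc, coe_cc]
  simp

/-- The preimage of a prime under `σ`. -/
noncomputable def cv (σ : K ≃+* K) (v : HeightOneSpectrum (𝓞 K)) : HeightOneSpectrum (𝓞 K) where
  asIdeal := v.asIdeal.comap (cc σ)
  isPrime := Ideal.comap_isPrime _ _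
  ne_bot := by
    intro h
    apply v.ne_bot
    rw [eq_bot_iff]
    intro r hr
    have h1 : (cc σ.symm r : 𝓞 K) ∈ v.asIdeal.comap (cc σ) := by
      rw [Ideal.mem_comap, cc_symm]
      exact hr
    rw [h, Ideal.mem_bot] at h1
    rw [Ideal.mem_bot]
    have := congrArg (cc σ) h1
    rwa [cc_symm, map_zero] at this

theorem mem_cv (σ : K ≃+* K) (v : HeightOneSpectrum (𝓞 K)) (r : 𝓞 K) :
    r ∈ (cv σ v).asIdeal ↔ cc σ r ∈ v.asIdeal := Iff.rfl

theorem cv_symm (σ : K ≃+* K) (v : HeightOneSpectrum (𝓞 K)) : cv σ.symm (cv σ v) = v := by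
  apply HeightOneSpectrum.ext
  ext r
  rw [mem_cv, mem_cv, cc_symm]

theorem cv_symm' (σ : K ≃+* K) (v : HeightOneSpectrum (𝓞 K)) : cv σ (cv σ.symm v) = v := by
  apply HeightOneSpectrum.ext
  ext r
  rw [mem_cv, mem_cv, cc_symm']

theorem comap_eq_map (σ : K ≃+* K) (I : Ideal (𝓞 K)) : I.comap (cc σ) = I.map (cc σ.symm) := by
  apply le_antisymm
  · intro r hr
    have := Ideal.mem_map_of_mem (cc σ.symm) (Ideal.mem_comap.1 hr)
    rwa [cc_symm'] at this
  · rw [Ideal.map_le_iff_le_comap]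
    intro r hr
    rw [Ideal.mem_comap, Ideal.mem_comap, cc_symm]
    exact hr

theorem map_eq (σ : K ≃+* K) (v : HeightOneSpectrum (𝓞 K)) :
    v.asIdeal.map (cc σ) = (cv σ.symm v).asIdeal := (comap_eq_map σ.symm v.asIdeal).symm

theorem cv_eq_iff (σ : K ≃+* K) (v : HeightOneSpectrum (𝓞 K)) :
    cv σ v = v ↔ v.asIdeal.map (cc σ) = v.asIdeal := by
  rw [map_eq]
  constructor
  · intro h
    have h2 := cv_symm σ v
    rw [h] at h2
    rw [h2]
  · intro h
    have h1 : cv σ.symm v = v := HeightOneSpectrum.ext h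
    have h2 := cv_symm' σ v
    rwa [h1] at h2

theorem cv_pow (σ : K ≃+* K) (v : HeightOneSpectrum (𝓞 K)) (n : ℕ) :
    (cv σ v).asIdeal ^ n = (v.asIdeal ^ n).comap (cc σ) := by
  show (v.asIdeal.comap (cc σ)) ^ n = _
  rw [comap_eq_map, comap_eq_map, Ideal.map_pow]

theorem intVal_cv (σ : K ≃+* K) (v : HeightOneSpectrum (𝓞 K)) (r : 𝓞 K) :
    (cv σ v).intValuation r = v.intValuation (cc σ r) := by
  rcases eq_or_ne r 0 with rfl | hr
  · simp
  have hr' : (cc σ r : 𝓞 K) ≠ 0 := by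
    intro h
    apply hr
    have := congrArg (cc σ.symm) h
    rwa [cc_symm', map_zero] at this
  have key : ∀ n : ℕ, (cv σ v).intValuation r ≤ WithZero.exp (-(n : ℤ)) ↔
      v.intValuation (cc σ r) ≤ WithZero.exp (-(n : ℤ)) := by
    intro n
    rw [HeightOneSpectrum.intValuation_le_pow_iff_mem, HeightOneSpectrum.intValuation_le_pow_iff_mem,
      cv_pow, Ideal.mem_comap]
  obtain ⟨a, ha⟩ : ∃ a : ℕ, (cv σ v).intValuation r = WithZero.exp (-(a : ℤ)) :=
    ⟨_, (cv σ v).intValuation_if_neg hr⟩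
  obtain ⟨b, hb⟩ : ∃ b : ℕ, v.intValuation (cc σ r) = WithZero.exp (-(b : ℤ)) :=
    ⟨_, v.intValuation_if_neg hr'⟩
  have h1 := (key a).1 ha.le
  have h2 := (key b).2 hb.le
  rw [ha] at h2
  rw [hb] at h1
  rw [ha, hb]
  exact le_antisymm h2 h1

theorem val_cv (σ : K ≃+* K) (v : HeightOneSpectrum (𝓞 K)) (x : K) :
    (cv σ v).valuation K x = v.valuation K (σ x) := by
  obtain ⟨a, b, hb, rfl⟩ := IsFractionRing.div_surjective (A := 𝓞 K) x
  rw [map_div₀, map_div₀ σ, map_div₀]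
  have h : ∀ r : 𝓞 K, (cv σ v).valuation K (algebraMap (𝓞 K) K r) =
      v.valuation K (σ (algebraMap (𝓞 K) K r)) := by
    intro r
    have h2 : σ (algebraMap (𝓞 K) K r) = algebraMap (𝓞 K) K (cc σ r) := rfl
    rw [h2, HeightOneSpectrum.valuation_of_algebraMap, HeightOneSpectrum.valuation_of_algebraMap,
      intVal_cv]
  rw [h, h]

theorem ord_conj (σ : K ≃+* K) (v : HeightOneSpectrum (𝓞 K)) (x : K) :
    ord v (σ x) = ord (cv σ v) x := by
  unfold ord
  rw [val_cv]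

theorem norm_cv (σ : K ≃+* K) (v : HeightOneSpectrum (𝓞 K)) :
    Ideal.absNorm (cv σ v).asIdeal = Ideal.absNorm v.asIdeal := by
  rw [Ideal.absNorm_apply, Ideal.absNorm_apply]
  unfold Submodule.cardQuot
  refine Nat.card_congr ?_
  exact (Ideal.quotientEquiv (cv σ v).asIdeal v.asIdeal (cc σ) (by
    have h : (cv σ v).asIdeal.map (cc σ) = (cv σ.symm (cv σ v)).asIdeal := map_eq σ (cv σ v)
    rw [cv_symm] at h
    rw [← h]
    rfl)).toEquiv

/-- The permutation of the primes induced by `σ`. -/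
noncomputable def cvE (σ : K ≃+* K) : HeightOneSpectrum (𝓞 K) ≃ HeightOneSpectrum (𝓞 K) where
  toFun := cv σ
  invFun := cv σ.symm
  left_inv := cv_symm σ
  right_inv := cv_symm' σ

theorem finsum_cv (σ : K ≃+* K) (f : HeightOneSpectrum (𝓞 K) → ℝ) :
    ∑ᶠ v, f (cv σ v) = ∑ᶠ v, f v :=
  finsum_comp_equiv (cvE σ)

end Pool.Agent.ACM
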