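import Mathlib
import Pool.Agent.ACM.Conj

/-! The height of an element that is moved by an automorphism is controlled by its exponents at the
primes that are not fixed by the automorphism, up to an archimedean term. -/

namespace Pool.Agent.ACM

open NumberField IsDedekindDomain Pool.Agent.H7.Abc

variable {K : Type*} [Field K] [NumberField K]

/-- The exponent to which `v` divides `y` (`0` if it does not). -/
noncomputable def e (v : HeightOneSpectrum (𝓞 K)) (y : K) : ℕ := (ord v y).toNat

theorem ord_inv (v : HeightOneSpectrum (𝓞 K)) (y : K) : ord v y⁻¹ = -ord v y := by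
  unfold ord
  rw [map_inv₀, WithZero.log_inv]

theorem log_max_eq (v : HeightOneSpectrum (𝓞 K)) {x : K} (hx : x ≠ 0) :
    Real.log (max 1 (FinitePlace.mk v x)) =
      (e v x⁻¹ : ℝ) * Real.log (Ideal.absNorm v.asIdeal : ℝ) := by
  have hpos : 0 < FinitePlace.mk v x := FinitePlace.pos_iff.2 hx
  have hl := log_mk v hx
  have hN := log_norm_pos v
  unfold e
  rw [ord_inv]
  rcases le_total (FinitePlace.mk v x) 1 with h | h
  · rw [max_eq_left h, Real.log_one]
    have h1 : Real.log (FinitePlace.mk v x) ≤ 0 := Real.log_nonpos hpos.le h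
    have h2 : 0 ≤ ord v x := by
      by_contra hneg
      push Not at hneg
      have : (ord v x : ℝ) < 0 := by exact_mod_cast hneg
      nlinarith
    rw [Int.toNat_of_nonpos (by omega)]
    simp
  · rw [max_eq_right h, hl]
    have h1 : 0 ≤ Real.log (FinitePlace.mk v x) := Real.log_nonneg h
    have h2 : ord v x ≤ 0 := by
      by_contra hneg
      push Not at hneg
      have : (0 : ℝ) < ord v x := by exact_mod_cast hneg
      nlinarith
    have h3 : (((-ord v x).toNat : ℕ) : ℝ) = -(ord v x : ℝ) := by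
      have : (((-ord v x).toNat : ℕ) : ℤ) = -ord v x := Int.toNat_of_nonneg (by omega)
      exact_mod_cast this
    rw [h3]

theorem finsum_mono' {ι : Type*} {f g : ι → ℝ} (hf : (Function.support f).Finite)
    (hg : (Function.support g).Finite) (h : ∀ i, f i ≤ g i) : ∑ᶠ i, f i ≤ ∑ᶠ i, g i := by
  classical
  rw [finsum_eq_sum_of_support_subset (s := hf.toFinset ∪ hg.toFinset) f (by
    intro i hi
    simp only [Finset.coe_union, Set.Finite.coe_toFinset]
    exact Or.inl hi), finsum_eq_sum_of_support_subset (s := hf.toFinset ∪ hg.toFinset) g (by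
    intro i hi
    simp only [Finset.coe_union, Set.Finite.coe_toFinset]
    exact Or.inr hi)]
  exact Finset.sum_le_sum fun i _ => h i

/-- The product formula in logarithmic form. -/
theorem prod_formula {t : K} (ht : t ≠ 0) :
    (∑ w : InfinitePlace K, (w.mult : ℝ) * Real.log (w t)) +
      ∑ᶠ v : HeightOneSpectrum (𝓞 K), Real.log (FinitePlace.mk v t) = 0 := by
  have h := hgt_inv t
  have hlog : ∀ a : ℝ, 0 < a → Real.log (max 1 a) - Real.log (max 1 a⁻¹) = Real.log a := by
    intro a ha
    rcases le_total a 1 with h1 | h1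
    · rw [max_eq_left h1, max_eq_right ((one_le_inv₀ ha).2 h1), Real.log_inv, Real.log_one]
      ring
    · rw [max_eq_right h1, max_eq_left (inv_le_one_of_one_le₀ h1), Real.log_one]
      ring
  have h1 : ∑ᶠ v : HeightOneSpectrum (𝓞 K), Real.log (FinitePlace.mk v t) =
      (∑ᶠ v : HeightOneSpectrum (𝓞 K), Real.log (max 1 (FinitePlace.mk v t))) -
        ∑ᶠ v : HeightOneSpectrum (𝓞 K), Real.log (max 1 (FinitePlace.mk v t⁻¹)) := by
    rw [← finsum_sub_distrib (finite_support_hgt ht) (finite_support_hgt (inv_ne_zero ht))]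
    refine finsum_congr fun v => ?_
    rw [mk_inv, hlog _ (FinitePlace.pos_iff.2 ht)]
  have h2 : ∑ w : InfinitePlace K, (w.mult : ℝ) * Real.log (w t) =
      (∑ w : InfinitePlace K, (w.mult : ℝ) * Real.log (max 1 (w t))) -
        ∑ w : InfinitePlace K, (w.mult : ℝ) * Real.log (max 1 (w t⁻¹)) := by
    rw [← Finset.sum_sub_distrib]
    refine Finset.sum_congr rfl fun w _ => ?_
    rw [map_inv₀, ← mul_sub, hlog _ (InfinitePlace.pos_iff.2 ht)]
  rw [h1, h2]
  unfold hgt at h
  linarith

theorem finite_support_log {t : K} (ht : t ≠ 0) :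
    (Function.support fun v : HeightOneSpectrum (𝓞 K) =>
      Real.log (FinitePlace.mk v t)).Finite := by
  refine (finite_support ht).subset ?_
  intro v hv h1
  apply hv
  simp only [h1, Real.log_one]

/-- The height computed with the multiple `(t x, t)` of `(x, 1)`. -/
theorem hgt_scale (x : K) {t : K} (ht : t ≠ 0) (hx : x ≠ 0) :
    hgt x = (∑ w : InfinitePlace K, (w.mult : ℝ) * Real.log (max (w t) (w (t * x)))) +
      ∑ᶠ v : HeightOneSpectrum (𝓞 K),
        Real.log (max (FinitePlace.mk v t) (FinitePlace.mk v (t * x))) := by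
  have hlog : ∀ a b : ℝ, 0 < a → Real.log (max a (a * b)) = Real.log (max 1 b) + Real.log a := by
    intro a b ha
    have h1 : max a (a * b) = max 1 b * a := by
      rw [max_mul_of_nonneg _ _ ha.le, one_mul, mul_comm a b]
    rw [h1, Real.log_mul (by positivity) ha.ne']
  have h1 : ∑ᶠ v : HeightOneSpectrum (𝓞 K),
      Real.log (max (FinitePlace.mk v t) (FinitePlace.mk v (t * x))) =
      (∑ᶠ v : HeightOneSpectrum (𝓞 K), Real.log (max 1 (FinitePlace.mk v x))) +
        ∑ᶠ v : HeightOneSpectrum (𝓞 K), Real.log (FinitePlace.mk v t) := by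
    rw [← finsum_add_distrib (finite_support_hgt hx) (finite_support_log ht)]
    refine finsum_congr fun v => ?_
    rw [map_mul, hlog _ _ (FinitePlace.pos_iff.2 ht)]
  have h2 : ∑ w : InfinitePlace K, (w.mult : ℝ) * Real.log (max (w t) (w (t * x))) =
      (∑ w : InfinitePlace K, (w.mult : ℝ) * Real.log (max 1 (w x))) +
        ∑ w : InfinitePlace K, (w.mult : ℝ) * Real.log (w t) := by
    rw [← Finset.sum_add_distrib]
    refine Finset.sum_congr rfl fun w _ => ?_
    rw [map_mul, hlog _ _ (InfinitePlace.pos_iff.2 ht)]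
    ring
  rw [h1, h2]
  have h3 := prod_formula ht
  unfold hgt
  linarith

/-- `x` and `x - 1` have the same poles. -/
theorem max_sub_one (v : HeightOneSpectrum (𝓞 K)) (x : K) :
    max 1 (FinitePlace.mk v (x - 1)) = max 1 (FinitePlace.mk v x) := by
  have key : ∀ a b : K, FinitePlace.mk v (a + b) ≤ max (FinitePlace.mk v a) (FinitePlace.mk v b) :=
    fun a b => FinitePlace.add_le _ a b
  have h1 : FinitePlace.mk v (-1 : K) = 1 := by
    rw [map_neg_eq_map, map_one]
  have h2 : FinitePlace.mk v (x - 1) ≤ max (FinitePlace.mk v x) 1 := by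
    have := key x (-1)
    rwa [h1, ← sub_eq_add_neg] at this
  have h3 : FinitePlace.mk v x ≤ max (FinitePlace.mk v (x - 1)) 1 := by
    have := key (x - 1) 1
    rwa [map_one, sub_add_cancel] at this
  apply le_antisymm
  · refine max_le (le_max_left _ _) (le_trans h2 ?_)
    rw [max_comm]
  · refine max_le (le_max_left _ _) (le_trans h3 ?_)
    rw [max_comm]

theorem e_inv_sub_one (v : HeightOneSpectrum (𝓞 K)) {x : K} (hx : x ≠ 0) (hx1 : x ≠ 1) :
    e v (x - 1)⁻¹ = e v x⁻¹ := by
  have h1 := log_max_eq v (sub_ne_zero.2 hx1)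
  rw [max_sub_one, log_max_eq v hx] at h1
  have h2 := mul_right_cancel₀ (log_norm_pos v).ne' h1
  exact_mod_cast h2.symm

/-- The excess of the exponents at `v` over those at the preimage of `v` under `σ`. -/
noncomputable def M (σ : K ≃+* K) (v : HeightOneSpectrum (𝓞 K)) (x : K) : ℕ :=
  max (e v x - e v (σ x)) (max (e v x⁻¹ - e v (σ x⁻¹))
    (e v (x - 1) - e v (σ (x - 1))))

theorem local_bound (c : K ≃+* K) (v : HeightOneSpectrum (𝓞 K)) {x : K} (hx : x ≠ 0)
    (hx1 : x ≠ 1) :
    Real.log (max 1 (max (FinitePlace.mk v (c x / x))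
      (FinitePlace.mk v ((c x - 1) / (x - 1))))) ≤
      (M c v x : ℝ) * Real.log (Ideal.absNorm v.asIdeal : ℝ) -
        ((e v x⁻¹ : ℝ) * Real.log (Ideal.absNorm v.asIdeal : ℝ) -
          (e v (c x)⁻¹ : ℝ) * Real.log (Ideal.absNorm v.asIdeal : ℝ)) := by
  have hcx : c x ≠ 0 := (map_ne_zero c).2 hx
  have hcx1 : c x ≠ 1 := fun h => hx1 (c.injective (by rw [h, map_one]))
  have hN := log_norm_pos v
  have hcs : c (x - 1) = c x - 1 := by rw [map_sub, map_one]
  have hci : c x⁻¹ = (c x)⁻¹ := map_inv₀ _ _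
  have hp := e_inv_sub_one v hx hx1
  have hp' := e_inv_sub_one v hcx hcx1
  have hq1 : (0 : ℝ) < FinitePlace.mk v (c x / x) := FinitePlace.pos_iff.2 (div_ne_zero hcx hx)
  have hq2 : (0 : ℝ) < FinitePlace.mk v ((c x - 1) / (x - 1)) :=
    FinitePlace.pos_iff.2 (div_ne_zero (sub_ne_zero.2 hcx1) (sub_ne_zero.2 hx1))
  have e0 : Real.log (FinitePlace.mk v (c x / x)) =
      ((ord v x - ord v (c x) : ℤ) : ℝ) * Real.log (Ideal.absNorm v.asIdeal : ℝ) := by
    rw [log_mk v (div_ne_zero hcx hx), ord_div v hcx hx]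
    push_cast
    ring
  have e1 : Real.log (FinitePlace.mk v ((c x - 1) / (x - 1))) =
      ((ord v (x - 1) - ord v (c x - 1) : ℤ) : ℝ) * Real.log (Ideal.absNorm v.asIdeal : ℝ) := by
    rw [log_mk v (div_ne_zero (sub_ne_zero.2 hcx1) (sub_ne_zero.2 hx1)),
      ord_div v (sub_ne_zero.2 hcx1) (sub_ne_zero.2 hx1)]
    push_cast
    ring
  have key : ∀ k : ℤ, k ≤ (M c v x : ℤ) - ((e v x⁻¹ : ℤ) - (e v (c x)⁻¹ : ℤ)) →
      (k : ℝ) * Real.log (Ideal.absNorm v.asIdeal : ℝ) ≤
      (M c v x : ℝ) * Real.log (Ideal.absNorm v.asIdeal : ℝ) -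
        ((e v x⁻¹ : ℝ) * Real.log (Ideal.absNorm v.asIdeal : ℝ) -
          (e v (c x)⁻¹ : ℝ) * Real.log (Ideal.absNorm v.asIdeal : ℝ)) := by
    intro k hk
    have h1 : (k : ℝ) ≤ (M c v x : ℝ) - ((e v x⁻¹ : ℝ) - (e v (c x)⁻¹ : ℝ)) := by exact_mod_cast hk
    have h2 := mul_le_mul_of_nonneg_right h1 hN.le
    linarith [h2]
  have hM : (M c v x : ℤ) = ((max (e v x - e v (c x)) (max (e v x⁻¹ - e v (c x)⁻¹)
    (e v (x - 1) - e v (c x - 1))) : ℕ) : ℤ) := by
    unfold M
    rw [hcs, hci]
  have b0 : (e v x : ℤ) = max (ord v x) 0 := by unfold e; omega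
  have b1 : (e v x⁻¹ : ℤ) = max (-ord v x) 0 := by unfold e; rw [ord_inv]; omega
  have b2 : (e v (x - 1) : ℤ) = max (ord v (x - 1)) 0 := by unfold e; omega
  have b3 : (e v (x - 1)⁻¹ : ℤ) = max (-ord v (x - 1)) 0 := by unfold e; rw [ord_inv]; omega
  have c0 : (e v (c x) : ℤ) = max (ord v (c x)) 0 := by unfold e; omega
  have c1 : (e v (c x)⁻¹ : ℤ) = max (-ord v (c x)) 0 := by unfold e; rw [ord_inv]; omega
  have c2 : (e v (c x - 1) : ℤ) = max (ord v (c x - 1)) 0 := by unfold e; omega
  have c3 : (e v (c x - 1)⁻¹ : ℤ) = max (-ord v (c x - 1)) 0 := by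
    unfold e; rw [ord_inv]; omega
  rcases le_total (max (FinitePlace.mk v (c x / x)) (FinitePlace.mk v ((c x - 1) / (x - 1)))) 1
    with h | h
  · rw [max_eq_left h, Real.log_one]
    have := key 0 (by rw [hM]; omega)
    simpa using this
  · rw [max_eq_right h]
    rcases le_total (FinitePlace.mk v (c x / x)) (FinitePlace.mk v ((c x - 1) / (x - 1)))
      with h' | h'
    · rw [max_eq_right h', e1]
      exact key _ (by rw [hM]; omega)
    · rw [max_eq_left h', e0]
      exact key _ (by rw [hM]; omega)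

theorem e_cv (σ : K ≃+* K) (v : HeightOneSpectrum (𝓞 K)) (y : K) : e v (σ y) = e (cv σ v) y := by
  unfold e
  rw [ord_conj]

/-- At a prime fixed by the automorphism there is no excess. -/
theorem M_eq_zero {σ : K ≃+* K} {v : HeightOneSpectrum (𝓞 K)} (h : cv σ v = v) (x : K) :
    M σ v x = 0 := by
  unfold M
  rw [e_cv, e_cv, e_cv, h]
  simp

theorem e_pos_iff (v : HeightOneSpectrum (𝓞 K)) {y : K} (hy : y ≠ 0) :
    0 < e v y ↔ FinitePlace.mk v y < 1 := by
  have hl := log_mk v hy
  have hN := log_norm_pos v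
  have hpos : 0 < FinitePlace.mk v y := FinitePlace.pos_iff.2 hy
  rw [← Real.log_neg_iff hpos, hl]
  have h1 : 0 < e v y ↔ 0 < ord v y := by unfold e; omega
  rw [h1]
  constructor
  · intro h
    have : (0 : ℝ) < ord v y := by exact_mod_cast h
    nlinarith
  · intro h
    by_contra hneg
    push Not at hneg
    have : (ord v y : ℝ) ≤ 0 := by exact_mod_cast hneg
    nlinarith

theorem M_support (σ : K ≃+* K) {x : K} (hx : x ≠ 0) (hx1 : x ≠ 1) :
    (Function.support fun v : HeightOneSpectrum (𝓞 K) =>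
      (M σ v x : ℝ) * Real.log (Ideal.absNorm v.asIdeal : ℝ)).Finite := by
  refine ((finite_support hx).union (finite_support (sub_ne_zero.2 hx1))).subset ?_
  intro v hv
  by_contra hno
  rw [Set.mem_union, not_or, Set.mem_ofPred_eq, Set.mem_ofPred_eq, not_not, not_not] at hno
  apply hv
  have h0 : ord v x = 0 := (ord_eq_zero_iff v hx).2 hno.1
  have h1 : ord v (x - 1) = 0 := (ord_eq_zero_iff v (sub_ne_zero.2 hx1)).2 hno.2
  have h2 : M σ v x = 0 := by
    unfold M e
    rw [ord_inv, h0, h1]
    simp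
  simp [h2]

theorem e_support {x : K} (hx : x ≠ 0) :
    (Function.support fun v : HeightOneSpectrum (𝓞 K) =>
      (e v x : ℝ) * Real.log (Ideal.absNorm v.asIdeal : ℝ)).Finite := by
  have h := finite_support_hgt (inv_ne_zero hx)
  refine h.subset ?_
  intro v hv
  rw [Function.mem_support, log_max_eq v (inv_ne_zero hx), inv_inv]
  exact hv

/-- The height bound. -/
theorem hgt_le (c : K ≃+* K) {x : K} (hx : c x ≠ x) :
    hgt x ≤ Module.finrank ℚ K * Real.log 2 +
      (∑ w : InfinitePlace K, (w.mult : ℝ) *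
        Real.log (max 1 (max (w (c x / x)) (w ((c x - 1) / (x - 1)))))) +
      ∑ᶠ v : HeightOneSpectrum (𝓞 K), (M c v x : ℝ) * Real.log (Ideal.absNorm v.asIdeal : ℝ) := by
  have hx0 : x ≠ 0 := by
    rintro rfl
    exact hx (map_zero _)
  have hx1 : x ≠ 1 := by
    rintro rfl
    exact hx (map_one _)
  have hcx : c x ≠ 0 := (map_ne_zero c).2 hx0
  have hcx1 : c x ≠ 1 := fun h => hx1 (c.injective (by rw [h, map_one]))
  have hs : x - 1 ≠ 0 := sub_ne_zero.2 hx1
  set y := c x / x with hy
  set z := (c x - 1) / (x - 1) with hz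
  set t := y - z with ht
  have htx : t * x = 1 - z := by
    rw [ht, hy, hz]
    field_simp
    ring
  have ht0 : t ≠ 0 := by
    intro h
    have h1 : t * (x * (x - 1)) = x - c x := by
      rw [ht, hy, hz]
      field_simp
      ring
    rw [h, zero_mul] at h1
    exact hx (sub_eq_zero.1 h1.symm).symm
  rw [hgt_scale x ht0 hx0, htx]
  have harch : ∑ w : InfinitePlace K, (w.mult : ℝ) * Real.log (max (w t) (w (1 - z))) ≤
      Module.finrank ℚ K * Real.log 2 + ∑ w : InfinitePlace K, (w.mult : ℝ) *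
        Real.log (max 1 (max (w y) (w z))) := by
    have h1 : ∀ w : InfinitePlace K, (w.mult : ℝ) * Real.log (max (w t) (w (1 - z))) ≤
        w.mult * Real.log 2 + w.mult * Real.log (max 1 (max (w y) (w z))) := by
      intro w
      set m := max 1 (max (w y) (w z)) with hm
      have m1 : 1 ≤ m := le_max_left _ _
      have my : w y ≤ m := le_trans (le_max_left _ _) (le_max_right _ _)
      have mz : w z ≤ m := le_trans (le_max_right _ _) (le_max_right _ _)
      have h3 : w t ≤ 2 * m := by
        have h4 : w t ≤ w y + w z := by rw [ht]; exact w.1.sub_le_add y z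
        linarith
      have h5 : w (1 - z) ≤ 2 * m := by
        have h4 : w (1 - z) ≤ w 1 + w z := w.1.sub_le_add 1 z
        rw [map_one] at h4
        linarith
      rw [← mul_add]
      refine mul_le_mul_of_nonneg_left ?_ (Nat.cast_nonneg _)
      rw [← Real.log_mul (by norm_num) (by positivity)]
      refine Real.log_le_log ?_ (max_le h3 h5)
      exact lt_of_lt_of_le (InfinitePlace.pos_iff.2 ht0) (le_max_left _ _)
    refine le_trans (Finset.sum_le_sum fun w _ => h1 w) (le_of_eq ?_)
    rw [Finset.sum_add_distrib, ← Finset.sum_mul, ← Nat.cast_sum, InfinitePlace.sum_mult_eq]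
  have hfin : ∑ᶠ v : HeightOneSpectrum (𝓞 K),
      Real.log (max (FinitePlace.mk v t) (FinitePlace.mk v (1 - z))) ≤
      ∑ᶠ v : HeightOneSpectrum (𝓞 K), ((M c v x : ℝ) * Real.log (Ideal.absNorm v.asIdeal : ℝ) -
        ((e v x⁻¹ : ℝ) * Real.log (Ideal.absNorm v.asIdeal : ℝ) -
          (e v (c x)⁻¹ : ℝ) * Real.log (Ideal.absNorm v.asIdeal : ℝ))) := by
    refine finsum_mono' ?_ ?_ ?_
    · have h1 : ∀ v : HeightOneSpectrum (𝓞 K),
          Real.log (max (FinitePlace.mk v t) (FinitePlace.mk v (1 - z))) =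
          Real.log (max 1 (FinitePlace.mk v x)) + Real.log (FinitePlace.mk v t) := by
        intro v
        have ha : 0 < FinitePlace.mk v t := FinitePlace.pos_iff.2 ht0
        have h2 : max (FinitePlace.mk v t) (FinitePlace.mk v (1 - z)) =
            max 1 (FinitePlace.mk v x) * FinitePlace.mk v t := by
          rw [← htx, map_mul, max_mul_of_nonneg _ _ ha.le, one_mul, mul_comm (FinitePlace.mk v x)]
        rw [h2, Real.log_mul (by positivity) ha.ne']
      simp_rw [h1]
      exact ((finite_support_hgt hx0).union (finite_support_log ht0)).subset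
        (Function.support_add _ _)
    · refine ((M_support c hx0 hx1).union ((e_support (inv_ne_zero hx0)).union
        (e_support (inv_ne_zero hcx)))).subset ?_
      refine (Function.support_sub _ _).trans ?_
      refine Set.union_subset_union_right _ ?_
      exact Function.support_sub _ _
    · intro v
      refine le_trans ?_ (local_bound c v hx0 hx1)
      rw [← hy, ← hz]
      have key : ∀ a b : K, FinitePlace.mk v (a - b) ≤
          max (FinitePlace.mk v a) (FinitePlace.mk v b) := by
        intro a b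
        have := FinitePlace.add_le (FinitePlace.mk v) a (-b)
        rwa [map_neg_eq_map, ← sub_eq_add_neg] at this
      refine Real.log_le_log ?_ (max_le ?_ ?_)
      · exact lt_of_lt_of_le (FinitePlace.pos_iff.2 ht0) (le_max_left _ _)
      · exact le_trans (key y z) (le_max_right _ _)
      · refine le_trans (key 1 z) ?_
        rw [map_one]
        exact max_le_max_left _ (le_max_right _ _)
  have hzero : ∑ᶠ v : HeightOneSpectrum (𝓞 K),
      (e v (c x)⁻¹ : ℝ) * Real.log (Ideal.absNorm v.asIdeal : ℝ) =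
      ∑ᶠ v : HeightOneSpectrum (𝓞 K),
      (e v x⁻¹ : ℝ) * Real.log (Ideal.absNorm v.asIdeal : ℝ) := by
    rw [← finsum_cv c fun v : HeightOneSpectrum (𝓞 K) =>
      (e v x⁻¹ : ℝ) * Real.log (Ideal.absNorm v.asIdeal : ℝ)]
    refine finsum_congr fun v => ?_
    have h1 : (c x)⁻¹ = c x⁻¹ := (map_inv₀ _ _).symm
    rw [h1, e_cv, norm_cv]
  rw [finsum_sub_distrib (M_support c hx0 hx1) (by
    refine ((e_support (inv_ne_zero hx0)).union (e_support (inv_ne_zero hcx))).subset ?_
    exact Function.support_sub _ _),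
    finsum_sub_distrib (e_support (inv_ne_zero hx0)) (e_support (inv_ne_zero hcx)), hzero,
    sub_self, sub_zero] at hfin
  linarith

end Pool.Agent.ACM
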